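import Pool.Agent.Helper17.IAN.StN

/-!
# IN module PRA (MP_953b28_co): rules for `Pr`
-/

set_option autoImplicit false

namespace Pool.Agent.Helper22.IAN

open Finset Pool.Agent.Helper93.IA Pool.Agent.Helper17.IAN

section

variable {α β γ : Type} [Fintype α] [Fintype β] [Fintype γ] [DecidableEq α] [DecidableEq β]
  [DecidableEq γ]

/-- the weight of a point -/
private noncomputable def wgt (x : α → β → γ → ℝ) (σ : α × β → Option γ) : ℝ :=
  ∏ e, wt x e (σ e)

open Classical in
private lemma Pr_def (x : α → β → γ → ℝ) (P : (α × β → Option γ) → Prop) :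
    Pr x P = ∑ σ : (α × β → Option γ), wgt x σ * (if P σ then 1 else 0) := rfl

private lemma wt_nonneg (x : α → β → γ → ℝ) (h0 : ∀ a b c, 0 ≤ x a b c)
    (h1 : ∀ a b, ∑ c, x a b c ≤ 1) (e : α × β) (u : Option γ) : 0 ≤ wt x e u := by
  cases u with
  | none =>
    show 0 ≤ 1 - ∑ c, x e.1 e.2 c
    linarith [h1 e.1 e.2]
  | some c => exact h0 e.1 e.2 c

private lemma wgt_nonneg (x : α → β → γ → ℝ) (h0 : ∀ a b c, 0 ≤ x a b c)
    (h1 : ∀ a b, ∑ c, x a b c ≤ 1) (σ : α × β → Option γ) : 0 ≤ wgt x σ :=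
  Finset.prod_nonneg fun e _ => wt_nonneg x h0 h1 e (σ e)

private lemma sum_wt (x : α → β → γ → ℝ) (e : α × β) : ∑ u, wt x e u = 1 := by
  rw [Fintype.sum_option]
  show (1 - ∑ c, x e.1 e.2 c) + ∑ c, x e.1 e.2 c = 1
  ring

private lemma sum_wgt (hPRD : StPRD) (x : α → β → γ → ℝ) :
    ∑ σ : (α × β → Option γ), wgt x σ = 1 := by
  have h := (hPRD (α × β) (fun _ => Option γ) (wt x)).2 (fun e => sum_wt x e)
  unfold Ex at h
  have e : ∑ σ : (α × β → Option γ), wgt x σ
      = ∑ σ : (∀ _ : α × β, Option γ), (∏ i, wt x i (σ i)) * 1 := by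
    apply Finset.sum_congr rfl
    intro σ _
    rw [mul_one]
    rfl
  rw [e]
  exact h

end

/-- IN module PRA -/
theorem hPRA : StPRA := by
  classical
  intro hPRD α β γ _ _ _ _ _ _ x h0 h1
  have hw := wgt_nonneg x h0 h1
  have hs := sum_wgt hPRD x
  refine ⟨?_, ?_, ?_, ?_⟩
  · intro P Q hPQ
    rw [Pr_def, Pr_def]
    apply Finset.sum_le_sum
    intro σ _
    apply mul_le_mul_of_nonneg_left _ (hw σ)
    by_cases hp : P σ
    · rw [if_pos hp, if_pos (hPQ σ hp)]
    · rw [if_neg hp]
      split_ifs <;> norm_num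
  · intro P
    constructor
    · rw [Pr_def]
      apply Finset.sum_nonneg
      intro σ _
      apply mul_nonneg (hw σ)
      split_ifs <;> norm_num
    · have key : Pr x (fun σ => ¬ P σ) = (∑ σ : (α × β → Option γ), wgt x σ) - Pr x P := by
        rw [Pr_def, Pr_def, ← Finset.sum_sub_distrib]
        apply Finset.sum_congr rfl
        intro σ _
        by_cases hp : P σ
        · rw [if_pos hp, if_neg (not_not.mpr hp)]; ring
        · rw [if_neg hp, if_pos hp]; ring
      rw [key, hs]
  · intro P Q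
    have key : Pr x (fun σ => ¬ P σ ∧ ¬ Q σ)
        = (∑ σ : (α × β → Option γ), wgt x σ) - Pr x P - Pr x Q + Pr x (fun σ => P σ ∧ Q σ) := by
      rw [Pr_def, Pr_def, Pr_def, Pr_def, ← Finset.sum_sub_distrib, ← Finset.sum_sub_distrib,
        ← Finset.sum_add_distrib]
      apply Finset.sum_congr rfl
      intro σ _
      by_cases hp : P σ
      · by_cases hq : Q σ
        · rw [if_pos hp, if_pos hq, if_neg (fun h => h.1 hp), if_pos ⟨hp, hq⟩]; ring
        · rw [if_pos hp, if_neg hq, if_neg (fun h => h.1 hp), if_neg (fun h => hq h.2)]; ring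
      · by_cases hq : Q σ
        · rw [if_neg hp, if_pos hq, if_neg (fun h => h.2 hq), if_neg (fun h => hp h.1)]; ring
        · rw [if_neg hp, if_neg hq, if_pos ⟨hp, hq⟩, if_neg (fun h => hp h.1)]; ring
    rw [key, hs]
  · intro ι _ _ P hP
    have e : ∀ i, Pr x (P i) = ∑ σ : (α × β → Option γ), wgt x σ * (if P i σ then 1 else 0) :=
      fun i => Pr_def x (P i)
    rw [Pr_def, Finset.sum_congr rfl fun i _ => e i, Finset.sum_comm]
    apply Finset.sum_congr rfl
    intro σ _
    rw [← Finset.mul_sum]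
    congr 1
    by_cases hex : ∃ i, P i σ
    · rw [if_pos hex]
      obtain ⟨i, hi⟩ := hex
      rw [Finset.sum_eq_single i]
      · rw [if_pos hi]
      · intro j _ hji
        rw [if_neg (fun hj => hji (hP σ j i hj hi))]
      · intro h; exact absurd (Finset.mem_univ i) h
    · rw [if_neg hex]
      symm
      apply Finset.sum_eq_zero
      intro i _
      rw [if_neg (fun h => hex ⟨i, h⟩)]

end Pool.Agent.Helper22.IAN
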